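import Pool.Agent.Helper38.FC.B1

/-!
# FC-FIN: the combinatorial core of the forcing construction
-/

set_option autoImplicit false

namespace Pool.Agent.Helper38.FC

open Set Filter Pool.Agent.Helper46.Tuk

variable {Ω : Type} [LinearOrder Ω] [OrderBot Ω] [IsOm1 Ω]
variable {r₀ : Cond Ω} {Dc : Cond Ω → Ω → Set ℕ → Prop} {k : ℕ}

/-- states of the final run -/
structure FnSt (Ω : Type) [LinearOrder Ω] [OrderBot Ω] [IsOm1 Ω] where
  p : Cond Ω
  n : ℕ
  t : ℕ → Ω
  c : ℕ → Set ℕ
  E : ℕ → Set ℕ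
  top : ℕ → Prop
  X : Set (Ω × Set ℕ)

/-- the union of the top pieces -/
def fn_Y (s : FnSt Ω) : Set ℕ := ⋃ j, ⋃ (_ : j < s.n ∧ s.top j), s.E j

/-- invariants of the states of the final run -/
structure FnInv (r₀ : Cond Ω) (Dc : Cond Ω → Ω → Set ℕ → Prop) (k : ℕ) (s : FnSt Ω) : Prop where
  le : s.p ≤ r₀
  len0 : s.p.len ≠ ⊥
  ll : LL Dc s.p k s.n s.t s.c
  cE : ∀ j < s.n, s.c j ⊆ s.E j
  fin : s.X.Finite
  xdc : ∀ x ∈ s.X, x.1 ≠ ⊥ ∧ Dc s.p x.1 x.2
  cB : ∀ x ∈ s.X, ∀ j < s.n, s.c j ⊆ x.2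
  pt : ∀ j < s.n, s.t j = ⊥ → (s.E j).Subsingleton
  Y : InV s.p (fn_Y s)ᶜ
  disj : ∀ i < s.n, ∀ j < s.n, s.top i → s.top j → i ≠ j → Disjoint (s.E i) (s.E j)
  kill : ∀ j < s.n, s.top j → ∃ x ∈ s.X, Disjoint (s.E j) (xx s.p.T x.1 k)

/-- the steps of the final run -/
structure FnStep (s s' : FnSt Ω) : Prop where
  le : s'.p ≤ s.p
  len : s.p.len < s'.p.len
  n : s'.n = s.n + 1
  t : ∀ j < s.n, s'.t j = s.t j
  E : ∀ j < s.n, s'.E j = s.E j
  top : ∀ j < s.n, (s'.top j ↔ s.top j)
  X : s.X ⊆ s'.X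
  ht : s'.top s.n → s.p.len ≤ s'.t s.n
  child : ∀ a, (Nat.unpair s.n).1 = a + 1 → s.t a ≠ ⊥ →
    ∃ i, s.n ≤ i ∧ s'.t s.n = (s.p.T (s.t a)).1 i ∧ s'.E s.n ⊆ s.E a ∩ (s.p.T (s.t a)).2 i
  istop : (Nat.unpair s.n).1 = 0 → s'.top s.n

section Steps

theorem fn_biInter_InV {p : Cond Ω} (hp : p.len ≠ ⊥) {X : Set (Ω × Set ℕ)} (hX : X.Finite)
    (h : ∀ x ∈ X, InV p x.2) : InV p (⋂ x ∈ X, x.2) := by
  induction X, hX using Set.Finite.induction_on with
  | empty => simpa using InV_univ hp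
  | insert _ _ ih =>
    rw [biInter_insert]
    exact (h _ (mem_insert _ _)).inter (ih fun x hx => h x (mem_insert_of_mem _ hx))

/-- a set forced into the ultrafilter is cosmall for all types from the length on -/
theorem fn_not_lg {p q : Cond Ω} {X : Set ℕ} (h : InV p X) (hq : q ≤ p) {γ : Ω}
    (hγ : p.len ≤ γ) : ¬ Lg q.T γ Xᶜ := by
  obtain ⟨δ, h1, h2⟩ := h
  intro h3
  exact h2 ((Lg_le hq h1 _).1 (Lg_of_le q.wf (h1.le.trans hγ) h3))

/-- child steps exist -/
theorem fn_child (hD : IsDc r₀ Dc)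
    (hB3 : ∀ {p : Cond Ω} {n : ℕ} {t : ℕ → Ω} {c : ℕ → Set ℕ}, LL Dc p k n t c →
      ∀ {j : ℕ}, j < n → t j ≠ ⊥ → ∀ m : ℕ,
      ∃ q ≤ p, ∃ i, m ≤ i ∧ ∃ (c' : ℕ → Set ℕ) (Q : Set ℕ), (∀ l < n, c' l ⊆ c l) ∧
        Q ⊆ c j ∩ (p.T (t j)).2 i ∧
        LL Dc q k (n + 1) (Function.update t n ((p.T (t j)).1 i)) (Function.update c' n Q))
    (s : FnSt Ω) (hs : FnInv r₀ Dc k s) {a : ℕ} (ha : a < s.n) (hta : s.t a ≠ ⊥)
    (hau : (Nat.unpair s.n).1 = a + 1) :
    ∃ s', FnInv r₀ Dc k s' ∧ FnStep s s' := by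
  obtain ⟨q₁, hq₁, i, hi, c', Q, hc', hQ, hLL₁⟩ := hB3 hs.ll ha hta s.n
  obtain ⟨q, hqq₁, hlen, _⟩ := exists_len q₁ q₁.len
  have hqs : q ≤ s.p := hqq₁.trans hq₁
  have hslen : s.p.len < q.len := (hq₁.1).trans_lt hlen
  have hlg₁ := hLL₁.lg
  have hlt₁ := hLL₁.lt
  have hLL : LL Dc q k (s.n + 1) (Function.update s.t s.n ((s.p.T (s.t a)).1 i))
      (Function.update c' s.n Q) :=
    hLL₁.mono hqq₁ (Ref.refl fun j hj => (Lg_le hqq₁ (hlt₁ j hj) _).2 (hlg₁ j hj))
  have hQl : Lg q.T ((s.p.T (s.t a)).1 i) Q := by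
    have := hLL.lg s.n (Nat.lt_succ_self _)
    simpa using this
  -- shrink the new piece to a point if its type is bottom
  obtain ⟨Q', hQ'Q, hQ'l, hQ'pt⟩ : ∃ Q' ⊆ Q, Lg q.T ((s.p.T (s.t a)).1 i) Q' ∧
      ((s.p.T (s.t a)).1 i = ⊥ → Q'.Subsingleton) := by
    by_cases hb : (s.p.T (s.t a)).1 i = ⊥
    · rw [hb, Lg_bot] at hQl
      obtain ⟨x, hx⟩ := hQl
      refine ⟨{x}, singleton_subset_iff.2 hx, ?_, fun _ => subsingleton_singleton⟩
      rw [hb, Lg_bot]
      exact singleton_nonempty x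
    · exact ⟨Q, Subset.rfl, hQl, fun h => absurd h hb⟩
  have hne : ∀ j < s.n, j ≠ s.n := fun j hj => hj.ne
  refine ⟨⟨q, s.n + 1, Function.update s.t s.n ((s.p.T (s.t a)).1 i), Function.update c' s.n Q',
    Function.update s.E s.n Q', Function.update s.top s.n False, s.X⟩, ?_, ?_⟩
  · refine ⟨hqs.trans hs.le, (bot_le.trans_lt hslen).ne', ?_, ?_, hs.fin, ?_, ?_, ?_, ?_, ?_, ?_⟩
    · -- LL
      refine hLL.mono le_rfl (Ref.of_subset ?_ ?_)
      · intro j hj
        rcases Nat.lt_succ_iff_lt_or_eq.1 hj with h | rfl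
        · simp only [Function.update_of_ne (hne j h)]
          have := hLL.lg j hj
          rw [Function.update_of_ne (hne j h), Function.update_of_ne (hne j h)] at this
          exact this
        · simpa using hQ'l
      · intro j hj
        rcases Nat.lt_succ_iff_lt_or_eq.1 hj with h | rfl
        · simp only [Function.update_of_ne (hne j h)]
          exact Subset.rfl
        · simpa using hQ'Q
    · intro j hj
      rcases Nat.lt_succ_iff_lt_or_eq.1 hj with h | rfl
      · simp only [Function.update_of_ne (hne j h)]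
        exact (hc' j h).trans (hs.cE j h)
      · simp
    · intro x hx
      exact ⟨(hs.xdc x hx).1, hD.mono hqs (hs.xdc x hx).2⟩
    · intro x hx j hj
      rcases Nat.lt_succ_iff_lt_or_eq.1 hj with h | rfl
      · simp only [Function.update_of_ne (hne j h)]
        exact (hc' j h).trans (hs.cB x hx j h)
      · simp only [Function.update_self]
        exact (hQ'Q.trans hQ).trans (inter_subset_left.trans (hs.cB x hx a ha))
    · intro j hj
      rcases Nat.lt_succ_iff_lt_or_eq.1 hj with h | rfl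
      · simp only [Function.update_of_ne (hne j h)]
        exact hs.pt j h
      · simp only [Function.update_self]
        exact hQ'pt
    · have : fn_Y (⟨q, s.n + 1, Function.update s.t s.n ((s.p.T (s.t a)).1 i),
          Function.update c' s.n Q',
          Function.update s.E s.n Q', Function.update s.top s.n False, s.X⟩ :
            FnSt Ω) ⊆ fn_Y s := by
        intro x hx
        simp only [fn_Y, mem_iUnion, exists_prop] at hx ⊢
        obtain ⟨j, ⟨hj, hjt⟩, hxj⟩ := hx
        rcases Nat.lt_succ_iff_lt_or_eq.1 hj with h | rfl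
        · rw [Function.update_of_ne (hne j h)] at hjt hxj
          exact ⟨j, ⟨h, hjt⟩, hxj⟩
        · simp at hjt
      exact (hs.Y.le hqs).mono (compl_subset_compl.2 this)
    · intro i' hi' j hj hti htj hij
      rcases Nat.lt_succ_iff_lt_or_eq.1 hi' with h | rfl
      · rcases Nat.lt_succ_iff_lt_or_eq.1 hj with h' | rfl
        · simp only [Function.update_of_ne (hne _ h)] at hti ⊢
          simp only [Function.update_of_ne (hne _ h')] at htj ⊢
          exact hs.disj i' h j h' hti htj hij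
        · simp at htj
      · simp at hti
    · intro j hj htj
      rcases Nat.lt_succ_iff_lt_or_eq.1 hj with h | rfl
      · simp only [Function.update_of_ne (hne _ h)] at htj ⊢
        obtain ⟨x, hx, hxd⟩ := hs.kill j h htj
        refine ⟨x, hx, ?_⟩
        rw [xx_le hqs (hD.lt (hs.xdc x hx).2)]
        exact hxd
      · simp at htj
  · refine ⟨hqs, hslen, rfl, ?_, ?_, ?_, Subset.rfl, ?_, ?_, ?_⟩
    · intro j hj
      simp only [Function.update_of_ne (hne j hj)]
    · intro j hj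
      simp only [Function.update_of_ne (hne j hj)]
    · intro j hj
      simp only [Function.update_of_ne (hne j hj)]
    · intro h
      simp at h
    · intro a' ha' _
      have : a' = a := by omega
      subst this
      refine ⟨i, hi, by simp, ?_⟩
      simp only [Function.update_self]
      exact (hQ'Q.trans hQ).trans (inter_subset_inter_left _ (hs.cE a' ha))
    · intro h
      omega

/-- top steps exist -/
theorem fn_top (hD : IsDc r₀ Dc)
    (hB2 : ∀ {p : Cond Ω} {n : ℕ} {t : ℕ → Ω} {c : ℕ → Set ℕ}, LL Dc p k n t c →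
      ∃ q ≤ p, ∃ γ, p.len ≤ γ ∧ γ < q.len ∧ ∃ (c' : ℕ → Set ℕ) (P : Set ℕ), Ref q.T n t c' c ∧
        Lg q.T γ P ∧
        (∀ r ≤ q, ∀ (c'' : ℕ → Set ℕ) (P' : Set ℕ), Ref r.T n t c'' c' → P' ⊆ P → Lg r.T γ P' →
          ¬ BD Dc r k n t c'' γ P') ∧
        LL Dc q k (n + 1) (Function.update t n γ) (Function.update c' n P))
    (s : FnSt Ω) (hs : FnInv r₀ Dc k s)
    (hau : ∀ a, (Nat.unpair s.n).1 = a + 1 → s.t a = ⊥) :
    ∃ s', FnInv r₀ Dc k s' ∧ FnStep s s' := by
  have hne : ∀ j < s.n, j ≠ s.n := fun j hj => hj.ne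
  have hZ : InV s.p ((fn_Y s)ᶜ ∩ (⋂ x ∈ s.X, x.2)) :=
    hs.Y.inter (fn_biInter_InV hs.len0 hs.fin fun x hx => hD.mem (hs.xdc x hx).2)
  set Z := (fn_Y s)ᶜ ∩ (⋂ x ∈ s.X, x.2) with hZdef
  obtain ⟨q, hq, γ, hγ, hγq, c', P, hc', hP, hal, hLL⟩ := hB2 hs.ll
  have hγ0 : γ ≠ ⊥ := fun h => hs.len0 (le_bot_iff.1 (h ▸ hγ))
  have hPZ : Lg q.T γ (P ∩ Z) := Lg_inter_of_diff hP
    (fun h => fn_not_lg hZ hq hγ (Lg_mono (fun x hx => hx.2) h))
  obtain ⟨q₂, hq₂, P₂, hP₂, hP₂l, hP₂V⟩ := exists_splitC q hγq hγ0 hPZ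
  have htq : ∀ j < s.n, s.t j < q.len := fun j hj => (hs.ll.lt j hj).trans_le hq.1
  have hc1 : ∀ j < s.n, Lg q.T (s.t j) (c' j ∩ s.c j) := hc'.inter
  have hdd := hal q₂ hq₂ (fun j => c' j ∩ s.c j) P₂
    ((Ref_le hq₂ htq).2 (Ref.of_subset hc1 fun j _ => inter_subset_left))
    (hP₂.trans inter_subset_left) hP₂l
  unfold BD at hdd
  push Not at hdd
  obtain ⟨r, hr, ξ, b, hξ, hb, hξ1, hξ2⟩ := hdd
  have hrq : r ≤ q := hr.trans hq₂
  have hrs : r ≤ s.p := hrq.trans hq
  have hγr : γ < r.len := hγq.trans_le hrq.1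
  have hξ0 : ξ ≠ ⊥ := by
    have : γ < ξ := (hγq.trans_le hq₂.1).trans_le hξ
    exact (bot_le.trans_lt this).ne'
  set En := P₂ ∩ (b \ xx r.T ξ k) with hEn
  set c2 : ℕ → Set ℕ := fun j => c' j ∩ s.c j ∩ b with hc2
  have hc2l : ∀ j < s.n, Lg r.T (s.t j) (c2 j) := hξ1
  refine ⟨⟨r, s.n + 1, Function.update s.t s.n γ, Function.update c2 s.n En,
    Function.update s.E s.n En, Function.update s.top s.n True, insert (ξ, b) s.X⟩, ?_, ?_⟩
  · refine ⟨hrs.trans hs.le, (bot_le.trans_lt hγr).ne', ?_, ?_, hs.fin.insert _, ?_, ?_, ?_, ?_,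
      ?_, ?_⟩
    · -- LL
      refine hLL.mono hrq (Ref.of_subset ?_ ?_)
      · intro j hj
        rcases Nat.lt_succ_iff_lt_or_eq.1 hj with h | rfl
        · simp only [Function.update_of_ne (hne j h)]
          exact hc2l j h
        · simpa using hξ2
      · intro j hj
        rcases Nat.lt_succ_iff_lt_or_eq.1 hj with h | rfl
        · simp only [Function.update_of_ne (hne j h)]
          exact inter_subset_left.trans inter_subset_left
        · simp only [Function.update_self]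
          exact inter_subset_left.trans (hP₂.trans inter_subset_left)
    · intro j hj
      rcases Nat.lt_succ_iff_lt_or_eq.1 hj with h | rfl
      · simp only [Function.update_of_ne (hne j h)]
        exact (inter_subset_left.trans inter_subset_right).trans (hs.cE j h)
      · simp
    · intro x hx
      rcases mem_insert_iff.1 hx with rfl | hx
      · exact ⟨hξ0, hb⟩
      · exact ⟨(hs.xdc x hx).1, hD.mono hrs (hs.xdc x hx).2⟩
    · intro x hx j hj
      rcases Nat.lt_succ_iff_lt_or_eq.1 hj with h | rfl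
      · simp only [Function.update_of_ne (hne j h)]
        rcases mem_insert_iff.1 hx with rfl | hx
        · exact inter_subset_right
        · exact (inter_subset_left.trans inter_subset_right).trans (hs.cB x hx j h)
      · simp only [Function.update_self]
        rcases mem_insert_iff.1 hx with rfl | hx
        · exact fun y hy => hy.2.1
        · intro y hy
          have h1 : y ∈ Z := (hP₂ hy.1).2
          exact mem_iInter₂.1 h1.2 x hx
    · intro j hj
      rcases Nat.lt_succ_iff_lt_or_eq.1 hj with h | rfl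
      · simp only [Function.update_of_ne (hne j h)]
        exact hs.pt j h
      · simp only [Function.update_self]
        exact fun h => absurd h hγ0
    · have : fn_Y (⟨r, s.n + 1, Function.update s.t s.n γ, Function.update c2 s.n En,
          Function.update s.E s.n En, Function.update s.top s.n True, insert (ξ, b) s.X⟩ :
          FnSt Ω) ⊆ fn_Y s ∪ En := by
        intro x hx
        simp only [fn_Y, mem_iUnion, exists_prop, mem_union] at hx ⊢
        obtain ⟨j, ⟨hj, hjt⟩, hxj⟩ := hx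
        rcases Nat.lt_succ_iff_lt_or_eq.1 hj with h | rfl
        · rw [Function.update_of_ne (hne j h)] at hjt hxj
          exact Or.inl ⟨j, ⟨h, hjt⟩, hxj⟩
        · rw [Function.update_self] at hxj
          exact Or.inr hxj
      have hEnV : InV r Enᶜ := (hP₂V.le hr).mono (compl_subset_compl.2 inter_subset_left)
      refine ((hs.Y.le hrs).inter hEnV).mono ?_
      rw [← compl_union]
      exact compl_subset_compl.2 this
    · have hdis : ∀ j < s.n, s.top j → Disjoint En (s.E j) := by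
        intro j hj htj
        rw [Set.disjoint_left]
        intro x hx hxj
        have h1 : x ∈ Z := (hP₂ hx.1).2
        apply h1.1
        simp only [fn_Y, mem_iUnion, exists_prop]
        exact ⟨j, ⟨hj, htj⟩, hxj⟩
      intro i' hi' j hj hti htj hij
      rcases Nat.lt_succ_iff_lt_or_eq.1 hi' with h | rfl
      · rcases Nat.lt_succ_iff_lt_or_eq.1 hj with h' | rfl
        · simp only [Function.update_of_ne (hne _ h)] at hti ⊢
          simp only [Function.update_of_ne (hne _ h')] at htj ⊢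
          exact hs.disj i' h j h' hti htj hij
        · simp only [Function.update_of_ne (hne _ h)] at hti ⊢
          simp only [Function.update_self]
          exact (hdis i' h hti).symm
      · rcases Nat.lt_succ_iff_lt_or_eq.1 hj with h' | rfl
        · simp only [Function.update_of_ne (hne _ h')] at htj ⊢
          simp only [Function.update_self]
          exact hdis j h' htj
        · exact absurd rfl hij
    · intro j hj htj
      rcases Nat.lt_succ_iff_lt_or_eq.1 hj with h | rfl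
      · simp only [Function.update_of_ne (hne _ h)] at htj ⊢
        obtain ⟨x, hx, hxd⟩ := hs.kill j h htj
        refine ⟨x, mem_insert_of_mem _ hx, ?_⟩
        rw [xx_le hrs (hD.lt (hs.xdc x hx).2)]
        exact hxd
      · refine ⟨(ξ, b), mem_insert _ _, ?_⟩
        simp only [Function.update_self]
        rw [Set.disjoint_left]
        exact fun x hx hx' => hx.2.2 hx'
  · refine ⟨hrs, hγ.trans_lt hγr, rfl, ?_, ?_, ?_, subset_insert _ _, ?_, ?_, ?_⟩
    · intro j hj
      simp only [Function.update_of_ne (hne j hj)]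
    · intro j hj
      simp only [Function.update_of_ne (hne j hj)]
    · intro j hj
      simp only [Function.update_of_ne (hne j hj)]
    · intro _
      simp only [Function.update_self]
      exact hγ
    · intro a ha hta
      exact absurd (hau a ha) hta
    · intro _
      simp only [Function.update_self]

end Steps

/-- FC-FIN with the modules B2, B3 as hypotheses -/
theorem star_of (hD : IsDc r₀ Dc)
    (hB2 : ∀ {p : Cond Ω} {k n : ℕ} {t : ℕ → Ω} {c : ℕ → Set ℕ}, LL Dc p k n t c →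
      ∃ q ≤ p, ∃ γ, p.len ≤ γ ∧ γ < q.len ∧ ∃ (c' : ℕ → Set ℕ) (P : Set ℕ), Ref q.T n t c' c ∧
        Lg q.T γ P ∧
        (∀ r ≤ q, ∀ (c'' : ℕ → Set ℕ) (P' : Set ℕ), Ref r.T n t c'' c' → P' ⊆ P → Lg r.T γ P' →
          ¬ BD Dc r k n t c'' γ P') ∧
        LL Dc q k (n + 1) (Function.update t n γ) (Function.update c' n P))
    (hB3 : ∀ {p : Cond Ω} {k n : ℕ} {t : ℕ → Ω} {c : ℕ → Set ℕ}, LL Dc p k n t c →
      ∀ {j : ℕ}, j < n → t j ≠ ⊥ → ∀ m : ℕ,
      ∃ q ≤ p, ∃ i, m ≤ i ∧ ∃ (c' : ℕ → Set ℕ) (Q : Set ℕ), (∀ l < n, c' l ⊆ c l) ∧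
        Q ⊆ c j ∩ (p.T (t j)).2 i ∧
        LL Dc q k (n + 1) (Function.update t n ((p.T (t j)).1 i)) (Function.update c' n Q)) :
    ∃ r ≤ r₀, ∃ (k : ℕ) (S : Set (Ω × Set ℕ)), (∀ x ∈ S, x.1 ≠ ⊥ ∧ Dc r x.1 x.2) ∧
      InV r (⋂ x ∈ S, x.2) ∧ InV r (⋂ x ∈ S, xx r.T x.1 k)ᶜ := by
  classical
  obtain ⟨p₁, hp₁, k, hk⟩ := exists_LL_zero hD
  obtain ⟨p₀, hp₀, hp₀l, _⟩ := exists_len p₁ (⊥ : Ω)
  have hstep : ∀ (s : {s : FnSt Ω // FnInv r₀ Dc k s}),
      ∃ s' : {s : FnSt Ω // FnInv r₀ Dc k s}, FnStep s.1 s'.1 := by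
    rintro ⟨s, hs⟩
    suffices h : ∃ s', FnInv r₀ Dc k s' ∧ FnStep s s' by
      obtain ⟨s', h1, h2⟩ := h
      exact ⟨⟨s', h1⟩, h2⟩
    by_cases h : ∃ a, (Nat.unpair s.n).1 = a + 1 ∧ s.t a ≠ ⊥
    · obtain ⟨a, ha, hta⟩ := h
      have hle := Nat.unpair_left_le s.n
      exact fn_child hD (fun h => hB3 h) s hs (by omega) hta ha
    · push Not at h
      exact fn_top hD (fun h => hB2 h) s hs h
  have hYe : fn_Y (⟨p₀, 0, fun _ => ⊥, fun _ => ∅, fun _ => ∅, fun _ => False, ∅⟩ : FnSt Ω) =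
      ∅ := by
    simp [fn_Y]
  let s0 : {s : FnSt Ω // FnInv r₀ Dc k s} :=
    ⟨⟨p₀, 0, fun _ => ⊥, fun _ => ∅, fun _ => ∅, fun _ => False, ∅⟩, by
      refine ⟨hp₀.trans hp₁, hp₀l.ne', ?_, ?_, finite_empty, ?_, ?_, ?_, ?_, ?_, ?_⟩
      · exact (hk _ _).mono hp₀ (Ref.refl fun j hj => absurd hj (Nat.not_lt_zero j))
      · intro j hj; exact absurd hj (Nat.not_lt_zero j)
      · intro ξ hξ; exact absurd hξ (notMem_empty ξ)
      · intro ξ hξ; exact absurd hξ (notMem_empty ξ)
      · intro j hj; exact absurd hj (Nat.not_lt_zero j)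
      · rw [hYe, compl_empty]
        exact InV_univ hp₀l.ne'
      · intro j hj; exact absurd hj (Nat.not_lt_zero j)
      · intro j hj; exact absurd hj (Nat.not_lt_zero j)⟩
  choose F hF using hstep
  obtain ⟨r, hr0, hr⟩ : ∃ r : ℕ → {s : FnSt Ω // FnInv r₀ Dc k s}, r 0 = s0 ∧
      ∀ m, FnStep (r m).1 (r (m + 1)).1 :=
    ⟨fun m => Nat.rec s0 (fun _ s => F s) m, rfl, fun m => hF _⟩
  -- the number of nodes
  have hn : ∀ m, (r m).1.n = m := by
    intro m
    induction m with
    | zero => rw [hr0]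
    | succ m ih => rw [(hr m).n, ih]
  -- stabilisation
  have hst : ∀ j m, j < m → (r m).1.t j = (r (j + 1)).1.t j ∧ (r m).1.E j = (r (j + 1)).1.E j ∧
      ((r m).1.top j ↔ (r (j + 1)).1.top j) := by
    intro j m hjm
    induction m, hjm using Nat.le_induction with
    | base => exact ⟨rfl, rfl, Iff.rfl⟩
    | succ m hm ih =>
      have hj : j < (r m).1.n := by rw [hn]; exact hm
      exact ⟨((hr m).t j hj).trans ih.1, ((hr m).E j hj).trans ih.2.1,
        ((hr m).top j hj).trans ih.2.2⟩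
  have hXm : ∀ l m, l ≤ m → (r l).1.X ⊆ (r m).1.X := by
    intro l m hlm
    induction m, hlm using Nat.le_induction with
    | base => exact Subset.rfl
    | succ m hm ih => exact ih.trans (hr m).X
  obtain ⟨w, hw1, hw2, hw3⟩ := exists_limit (fun m => (r m).1.p) (fun m => (hr m).le)
    (fun m => (hr m).len)
  have hw0 : w.len ≠ ⊥ := (bot_le.trans_lt (hw2 0)).ne'
  set S : Set (Ω × Set ℕ) := ⋃ m, (r m).1.X with hS
  set τ : ℕ → Ω := fun j => (r (j + 1)).1.t j with hτ
  set EE : ℕ → Set ℕ := fun j => (r (j + 1)).1.E j with hEE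
  set tp : ℕ → Prop := fun j => (r (j + 1)).1.top j with htp
  have hτlt : ∀ j, τ j < (r (j + 1)).1.p.len := fun j =>
    (r (j + 1)).2.ll.lt j (by rw [hn]; omega)
  -- the main claim
  have claim : ∀ α : Ω, ∀ j, τ j = α → Lg w.T α (EE j ∩ ⋂ x ∈ S, x.2) := by
    intro α
    induction α using WellFoundedLT.induction with
    | ind α ih =>
      intro j hj
      by_cases hα : α = ⊥
      · subst hα
        rw [Lg_bot]
        have hpt : (EE j).Subsingleton := (r (j + 1)).2.pt j (by rw [hn]; omega) hj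
        have hnon : ∀ m, j < m → ((r m).1.c j).Nonempty := by
          intro m hm
          have h1 := (r m).2.ll.lg j (by rw [hn]; exact hm)
          rw [(hst j m hm).1, show (r (j + 1)).1.t j = ⊥ from hj, Lg_bot] at h1
          exact h1
        obtain ⟨x, hx⟩ := hnon (j + 1) (Nat.lt_succ_self j)
        have hxE : x ∈ EE j := (r (j + 1)).2.cE j (by rw [hn]; omega) hx
        refine ⟨x, hxE, mem_iInter₂.2 fun ξ hξ => ?_⟩
        obtain ⟨m, hm⟩ := mem_iUnion.1 hξ
        have hM : j < max m (j + 1) := (Nat.lt_succ_self j).trans_le (le_max_right _ _)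
        obtain ⟨y, hy⟩ := hnon (max m (j + 1)) hM
        have hyE : y ∈ EE j := by
          have := (r (max m (j + 1))).2.cE j (by rw [hn]; exact hM) hy
          rw [(hst j _ hM).2.1] at this
          exact this
        have hyB := (r (max m (j + 1))).2.cB ξ (hXm m _ (le_max_left _ _) hm) j
          (by rw [hn]; exact hM) hy
        rwa [hpt hxE hyE]
      · rw [Lg_iff w.wf hα, Set.infinite_iff_exists_gt]
        intro N
        -- the child step number `n = pair (j+1) N'`
        obtain ⟨n, hnj, hnN, hnu⟩ : ∃ n, j < n ∧ N < n ∧ (Nat.unpair n).1 = j + 1 := by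
          refine ⟨Nat.pair (j + 1) (N + 1), ?_, ?_, ?_⟩
          · exact Nat.lt_of_succ_le (Nat.left_le_pair _ _)
          · exact Nat.lt_of_succ_le (Nat.right_le_pair _ _)
          · rw [Nat.unpair_pair]
        have htj : (r n).1.t j = α := (hst j n hnj).1.trans hj
        have hαlt : α < (r n).1.p.len := by
          rw [← htj]
          exact (r n).2.ll.lt j (by rw [hn]; exact hnj)
        have hTα : w.T α = (r n).1.p.T α := T_eq (hw1 n) hαlt
        obtain ⟨i, hi, hti, hEi⟩ := (hr n).child j (by rw [hn]; exact hnu)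
          (by rw [htj]; exact hα)
        rw [hn] at hi hti hEi
        rw [htj, ← hTα] at hti hEi
        rw [(hst j n hnj).2.1] at hEi
        refine ⟨i, ?_, hnN.trans_le hi⟩
        have hlt : (w.T α).1 i < α := (w.wf α hα).lt i
        have := ih _ hlt n hti
        refine Lg_mono ?_ this
        rintro x ⟨hx1, hx2⟩
        exact ⟨⟨(hEi hx1).1, hx2⟩, (hEi hx1).2⟩
  have hinf : ∀ N, ∃ i, N < i ∧ tp i := by
    intro N
    refine ⟨Nat.pair 0 (N + 1), Nat.lt_of_succ_le (Nat.right_le_pair _ _), ?_⟩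
    have := (hr (Nat.pair 0 (N + 1))).istop (by rw [hn, Nat.unpair_pair])
    rw [hn] at this
    exact this
  have hval : Valid w.T w.len (fun i => if tp i then τ i else (r i).1.p.len)
      (fun i => if tp i then EE i ∩ ⋂ x ∈ S, x.2 else ∅) := by
    refine ⟨?_, ?_, ?_, ?_⟩
    · intro i
      by_cases hti : tp i
      · rw [if_pos hti]
        exact (hτlt i).trans (hw2 (i + 1))
      · rw [if_neg hti]
        exact hw2 i
    · intro γ hγ
      obtain ⟨m, hm⟩ := hw3 γ hγ
      refine Filter.eventually_atTop.2 ⟨m, fun i hi => ?_⟩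
      have h2 : (r m).1.p.len ≤ (r i).1.p.len :=
        (antitone_len (r := fun m => (r m).1.p) (fun m => (hr m).le) hi).1
      by_cases hti : tp i
      · rw [if_pos hti]
        have := (hr i).ht (by rw [hn]; exact hti)
        rw [hn] at this
        exact hm.le.trans (h2.trans this)
      · rw [if_neg hti]
        exact hm.le.trans h2
    · intro i j hij
      show Disjoint (if tp i then EE i ∩ ⋂ x ∈ S, x.2 else ∅)
        (if tp j then EE j ∩ ⋂ x ∈ S, x.2 else ∅)
      by_cases hti : tp i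
      · by_cases htj : tp j
        · rw [if_pos hti, if_pos htj]
          have hi' : i < max i j + 1 := Nat.lt_succ_of_le (le_max_left _ _)
          have hj' : j < max i j + 1 := Nat.lt_succ_of_le (le_max_right _ _)
          have := (r (max i j + 1)).2.disj i (by rw [hn]; exact hi') j (by rw [hn]; exact hj')
            ((hst i _ hi').2.2.2 hti) ((hst j _ hj').2.2.2 htj) hij
          rw [(hst i _ hi').2.1, (hst j _ hj').2.1] at this
          exact this.mono inter_subset_left inter_subset_left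
        · rw [if_neg htj]; exact disjoint_bot_right
      · rw [if_neg hti]; exact disjoint_bot_left
    · rw [Set.infinite_iff_exists_gt]
      intro N
      obtain ⟨i, hi, hti⟩ := hinf N
      refine ⟨i, ?_, hi⟩
      show Lg w.T _ _
      rw [if_pos hti, if_pos hti]
      exact claim _ i rfl
  obtain ⟨v, hv1, hv2, _, hv4⟩ := exists_level w hw0 le_rfl hval
  have hvr : ∀ m, v ≤ (r m).1.p := fun m => hv1.trans (hw1 m)
  refine ⟨v, (hvr 0).trans (r 0).2.le, k, S, ?_, ?_, ?_⟩
  · intro x hx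
    obtain ⟨m, hm⟩ := mem_iUnion.1 hx
    exact ⟨((r m).2.xdc x hm).1, hD.mono (hvr m) ((r m).2.xdc x hm).2⟩
  · refine InV_of_level hw0 hv2 fun i => ?_
    rw [hv4]
    show (if tp i then EE i ∩ ⋂ x ∈ S, x.2 else ∅) ⊆ _
    by_cases hti : tp i
    · rw [if_pos hti]; exact inter_subset_right
    · rw [if_neg hti]; exact empty_subset _
  · refine InV_of_level hw0 hv2 fun i => ?_
    rw [hv4]
    show (if tp i then EE i ∩ ⋂ x ∈ S, x.2 else ∅) ⊆ _
    by_cases hti : tp i
    · rw [if_pos hti]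
      obtain ⟨x, hx, hd⟩ := (r (i + 1)).2.kill i (by rw [hn]; omega) hti
      intro y hy hy'
      have h2 : y ∈ xx v.T x.1 k := mem_iInter₂.1 hy' x (mem_iUnion.2 ⟨_, hx⟩)
      rw [xx_le (hvr (i + 1)) (hD.lt ((r (i + 1)).2.xdc x hx).2)] at h2
      exact Set.disjoint_left.1 hd hy.1 h2
    · rw [if_neg hti]; exact empty_subset _

end Pool.Agent.Helper38.FC
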